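import Mathlib
import Pool.Agent.R443.PS

/-!
# A counterexample to the conjecture on `A_{p,(p-1)(u p^s-1)}(n)`

For `p = 13`, `u = 5`, `s = 1`, so `k = 12 * 64 = 768`, the number `A_{13,768}(221)` is divisible
by `13^4` and `A_{13,768}(222)` is divisible by `13^3` but not by `13^4`.  Here `221 = 13 * 17`.
-/

set_option autoImplicit false

namespace Pool.Agent.Results.MP_7b566e_nt.CounterexampleThirteen

open PowerSeries Finset

/-- `A m k n` is the coefficient of `x^n` in `∏_{i ≥ 0} 1 / (1 - x^(m^i))^k`.  For `m ≥ 2` the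
factors with `i > n` do not influence this coefficient, because `m^i > n` for them; so it is the
coefficient of `x^n` in the finite product over `0 ≤ i ≤ n`.
Here `invOfUnit (1 - X ^ d) 1` is the inverse power series of `1 - X ^ d` (for `d ≥ 1`). -/
noncomputable def A (m k n : ℕ) : ℤ :=
  coeff n (∏ i ∈ range (n + 1), (invOfUnit (1 - X ^ (m ^ i) : ℤ⟦X⟧) 1) ^ k)

open Pool.Agent.R443.PS in
theorem A_eq (k n : ℕ) (h2 : 2 ≤ n) (h : n < 13 ^ 3) :
    A 13 (k + 1) n = ∑ c ∈ range (n / 169 + 1), ((Nat.choose (k + c) k : ℕ) : ℤ) *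
      ∑ b ∈ range ((n - 169 * c) / 13 + 1), ((Nat.choose (k + b) k : ℕ) : ℤ) *
        ((Nat.choose (k + (n - 169 * c - 13 * b)) k : ℕ) : ℤ) := by
  have key : ∀ N : ℕ, coeff n (∏ i ∈ range (N + 3), iv (13 ^ i) ^ (k + 1)) =
      coeff n (∏ i ∈ range 3, iv (13 ^ i) ^ (k + 1)) := by
    intro N
    induction N with
    | zero => rfl
    | succ N ih =>
      rw [show N + 1 + 3 = (N + 3) + 1 by ring, prod_range_succ, mul_comm,
        coeff_iv_pow_mul_of_lt _ _ ?_, ih]
      calc n < 13 ^ 3 := h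
        _ ≤ 13 ^ (N + 3) := Nat.pow_le_pow_right (by norm_num) (by omega)
  have h1 : A 13 (k + 1) n = coeff n (∏ i ∈ range ((n - 2) + 3), iv (13 ^ i) ^ (k + 1)) := by
    unfold A iv
    rw [show n - 2 + 3 = n + 1 by omega]
  rw [h1, key, prod_range_succ, prod_range_succ, prod_range_succ, prod_range_zero, one_mul,
    mul_comm, coeff_iv_pow_mul (by norm_num)]
  rw [show (13 : ℕ) ^ 2 = 169 by norm_num]
  apply sum_congr rfl
  intro c _
  rw [mul_comm, mul_comm (iv (13 ^ 0) ^ (k + 1)), coeff_iv_pow_mul (by norm_num)]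
  rw [pow_one, mul_comm]
  congr 1
  apply sum_congr rfl
  intro b _
  rw [pow_zero, coeff_iv_pow_succ one_ne_zero]
  simp

theorem choose_eq (a : ℕ) : Nat.choose (767 + a) 767 = Nat.ascFactorial 768 a / Nat.factorial a := by
  have h := Nat.ascFactorial_eq_factorial_mul_choose 767 a
  rw [h, Nat.mul_div_cancel_left _ (Nat.factorial_pos a)]
  exact (Nat.choose_symm_add).symm ▸ rfl

/-- The value of `A 13 768 n` for `2 ≤ n < 13^3`, in a form suited to computation. -/
def val (n : ℕ) : ℕ := ∑ c ∈ range (n / 169 + 1), (Nat.ascFactorial 768 c / Nat.factorial c) *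
      ∑ b ∈ range ((n - 169 * c) / 13 + 1), (Nat.ascFactorial 768 b / Nat.factorial b) *
        (Nat.ascFactorial 768 (n - 169 * c - 13 * b) / Nat.factorial (n - 169 * c - 13 * b))

theorem A_eq_val (n : ℕ) (h2 : 2 ≤ n) (h : n < 13 ^ 3) : A 13 768 n = (val n : ℤ) := by
  rw [show 768 = 767 + 1 by norm_num, A_eq 767 n h2 h]
  unfold val
  simp only [choose_eq, Nat.cast_sum, Nat.cast_mul]

theorem val1 : 13 ^ 4 ∣ val 221 ∧ ¬ 13 ^ 5 ∣ val 221 := by decide +kernel

theorem val2 : 13 ^ 3 ∣ val 222 ∧ ¬ 13 ^ 4 ∣ val 222 := by decide +kernel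

theorem padic_of {n : ℕ} {e : ℕ} (h1 : 13 ^ e ∣ n) (h2 : ¬ 13 ^ (e + 1) ∣ n) :
    padicValInt 13 (n : ℤ) = e := by
  have : Fact (Nat.Prime 13) := ⟨by norm_num⟩
  rw [padicValInt.of_nat]
  have hn : n ≠ 0 := by
    rintro rfl
    exact h2 (dvd_zero _)
  apply le_antisymm
  · by_contra hcon
    rw [not_le] at hcon
    exact h2 ((padicValNat_dvd_iff_le hn).mpr hcon)
  · exact (padicValNat_dvd_iff_le hn).mp h1

/-- The claims (i) and (ii) both fail for `p = 13`, `u = 5`, `s = 1`, `k = (p-1)(u p^s-1) = 768`: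
the valuation at `n = 221 = 13 * 17 ≥ u p^s = 65` is `4`, not `1` or `2`, and it differs from the
valuation `3` at `13 * 17 + 1`. -/
theorem result :
    Nat.Prime 13 ∧ 5 * 13 ^ 1 ≤ 13 * 17 ∧
    padicValInt 13 (A 13 ((13 - 1) * (5 * 13 ^ 1 - 1)) (13 * 17)) = 4 ∧
    padicValInt 13 (A 13 ((13 - 1) * (5 * 13 ^ 1 - 1)) (13 * 17 + 1)) = 3 := by
  have h1 : padicValInt 13 (A 13 768 221) = 4 := by
    rw [A_eq_val 221 (by norm_num) (by norm_num)]
    exact padic_of val1.1 val1.2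
  have h2 : padicValInt 13 (A 13 768 222) = 3 := by
    rw [A_eq_val 222 (by norm_num) (by norm_num)]
    exact padic_of val2.1 val2.2
  refine ⟨by norm_num, by norm_num, ?_, ?_⟩
  · rw [show 13 * 17 = 221 by norm_num, show (13 - 1) * (5 * 13 ^ 1 - 1) = 768 by norm_num, h1]
  · rw [show 13 * 17 + 1 = 222 by norm_num, show (13 - 1) * (5 * 13 ^ 1 - 1) = 768 by norm_num, h2]

end Pool.Agent.Results.MP_7b566e_nt.CounterexampleThirteen
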